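import Mathlib

set_option autoImplicit false

open Set Filter Topology

namespace Pool.Agent.Lib_helper60.Ulam

noncomputable section

/-- bounded injective shift -/
def s (x : ℝ) : ℝ := Real.arctan x - 2

/-- bounded injective map with range disjoint from the range of `s` -/
def p (x : ℝ) : ℝ := Real.arctan x + 2

lemma s_neg (x : ℝ) : s x < 0 := by
  have := Real.arctan_lt_pi_div_two x
  have := Real.pi_lt_four
  unfold s; linarith

lemma p_pos (x : ℝ) : 0 < p x := by
  have := Real.neg_pi_div_two_lt_arctan x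
  have := Real.pi_lt_four
  unfold p; linarith

lemma s_abs (x : ℝ) : |s x| ≤ 4 := by
  have := Real.arctan_lt_pi_div_two x
  have := Real.neg_pi_div_two_lt_arctan x
  have := Real.pi_lt_four
  unfold s; rw [abs_le]; constructor <;> linarith

lemma p_abs (x : ℝ) : |p x| ≤ 4 := by
  have := Real.arctan_lt_pi_div_two x
  have := Real.neg_pi_div_two_lt_arctan x
  have := Real.pi_lt_four
  unfold p; rw [abs_le]; constructor <;> linarith

lemma s_strictMono : StrictMono s := fun x y h => by
  have := Real.arctan_strictMono h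
  unfold s; linarith

lemma p_strictMono : StrictMono p := fun x y h => by
  have := Real.arctan_strictMono h
  unfold p; linarith

lemma s_cont : Continuous s := by unfold s; fun_prop

lemma p_cont : Continuous p := by unfold p; fun_prop

/-- a strictly monotone continuous real function is an open embedding -/
lemma isOpenEmbedding_of_sm {f : ℝ → ℝ} (hf : StrictMono f) (hc : Continuous f) :
    IsOpenEmbedding f := by
  have hoc : OrdConnected (range f) := by
    rw [← image_univ]
    exact (isPreconnected_univ.image f hc.continuousOn).ordConnected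
  refine ⟨hf.isEmbedding_of_ordConnected hoc, ?_⟩
  rw [isOpen_iff_mem_nhds]
  rintro _ ⟨x, rfl⟩
  have h1 : f (x - 1) < f x := hf (by linarith)
  have h2 : f x < f (x + 1) := hf (by linarith)
  refine mem_of_superset (Icc_mem_nhds h1 h2) ?_
  exact hoc.out (mem_range_self _) (mem_range_self _)

/-- the k-th chart -/
def g (k : ℕ) (x : ℝ) : ℝ := s^[k] (p x)

lemma g_openEmb (k : ℕ) : IsOpenEmbedding (g k) := by
  refine isOpenEmbedding_of_sm ?_ ?_
  · exact (s_strictMono.iterate k).comp p_strictMono
  · exact (s_cont.iterate k).comp p_cont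

lemma g_inj {k l : ℕ} {x y : ℝ} (h : g k x = g l y) : k = l ∧ x = y := by
  induction k generalizing l with
  | zero =>
    cases l with
    | zero => exact ⟨rfl, p_strictMono.injective h⟩
    | succ l =>
      exfalso
      have h1 : g 0 x = p x := rfl
      have h2 : g (l + 1) y = s (s^[l] (p y)) := Function.iterate_succ_apply' _ _ _
      have h3 := s_neg (s^[l] (p y))
      have h4 := p_pos x
      rw [h1, h2] at h
      linarith
  | succ k ih =>
    have h1 : g (k + 1) x = s (s^[k] (p x)) := Function.iterate_succ_apply' _ _ _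
    cases l with
    | zero =>
      exfalso
      have h2 : g 0 y = p y := rfl
      have h3 := s_neg (s^[k] (p x))
      have h4 := p_pos y
      rw [h1, h2] at h
      linarith
    | succ l =>
      have h2 : g (l + 1) y = s (s^[l] (p y)) := Function.iterate_succ_apply' _ _ _
      rw [h1, h2] at h
      have h5 := s_strictMono.injective h
      obtain ⟨h6, h7⟩ := ih (l := l) h5
      exact ⟨by omega, h7⟩

/-- extension by zero of the family `u` through the charts `g` -/
def ext (u : ℕ → ℝ → ℝ) : ℝ → ℝ :=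
  Function.extend (fun q : ℕ × ℝ => g q.1 q.2) (fun q : ℕ × ℝ => u q.1 q.2) (fun _ => 0)

lemma gg_inj : Function.Injective (fun q : ℕ × ℝ => g q.1 q.2) := by
  rintro ⟨k, x⟩ ⟨l, y⟩ h
  obtain ⟨h1, h2⟩ := g_inj h
  rw [Prod.mk.injEq]
  exact ⟨h1, h2⟩

lemma ext_g (u : ℕ → ℝ → ℝ) (k : ℕ) (x : ℝ) : ext u (g k x) = u k x :=
  gg_inj.extend_apply _ _ (k, x)

lemma ext_of_not (u : ℕ → ℝ → ℝ) {y : ℝ} (hy : ∀ k x, g k x ≠ y) : ext u y = 0 := by
  unfold ext
  rw [Function.extend_apply']
  rintro ⟨⟨k, x⟩, h⟩
  exact hy k x h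

lemma ext_cont {u : ℕ → ℝ → ℝ} (hu : ∀ k, Continuous (u k))
    (hb : ∀ k x, |u k x| ≤ (1 / 2) ^ k / (1 + |x|)) : Continuous (ext u) := by
  rw [continuous_iff_continuousAt]
  intro y
  by_cases hy : ∃ k x, g k x = y
  · obtain ⟨k, x, rfl⟩ := hy
    rw [← (g_openEmb k).continuousAt_iff]
    have : ext u ∘ g k = u k := by
      ext x; exact ext_g u k x
    rw [this]
    exact (hu k).continuousAt
  · push Not at hy
    rw [ContinuousAt, ext_of_not u hy, Metric.tendsto_nhds]
    intro ε hε
    obtain ⟨N, hN⟩ : ∃ N : ℕ, (1 / 2 : ℝ) ^ N < ε := exists_pow_lt_of_lt_one hε (by norm_num)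
    -- the compact set
    let K : Set ℝ := ⋃ k ∈ Finset.range N, g k '' Icc (-(1 / ε)) (1 / ε)
    have hK : IsCompact K := by
      refine (Finset.range N).isCompact_biUnion ?_
      intro k _
      exact isCompact_Icc.image (g_openEmb k).continuous
    have hyK : y ∉ K := by
      intro h
      simp only [K, mem_iUnion] at h
      obtain ⟨k, _, x, _, hx⟩ := h
      exact hy k x hx
    filter_upwards [hK.isClosed.isOpen_compl.mem_nhds hyK] with z hz
    rw [Real.dist_eq, sub_zero]
    by_cases hz2 : ∃ k x, g k x = z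
    · obtain ⟨k, x, rfl⟩ := hz2
      rw [ext_g]
      by_contra hcon
      push Not at hcon
      have h1 := hb k x
      have hx0 : 0 < 1 + |x| := by positivity
      apply hz
      simp only [K, mem_iUnion]
      have hkε : ε ≤ (1 / 2) ^ k / (1 + |x|) := hcon.trans h1
      rw [le_div_iff₀ hx0] at hkε
      have hk : k < N := by
        by_contra hkN
        push Not at hkN
        have : (1 / 2 : ℝ) ^ k ≤ (1 / 2) ^ N :=
          pow_le_pow_of_le_one (by norm_num) (by norm_num) hkN
        have : ε * 1 ≤ ε * (1 + |x|) := by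
          apply mul_le_mul_of_nonneg_left _ hε.le
          have := abs_nonneg x
          linarith
        linarith
      refine ⟨k, Finset.mem_range.2 hk, x, ?_, rfl⟩
      have hk1 : (1 / 2 : ℝ) ^ k ≤ 1 := pow_le_one₀ (by norm_num) (by norm_num)
      have h3 : |x| ≤ 1 / ε := by
        rw [le_div_iff₀ hε]
        nlinarith [abs_nonneg x]
      rw [abs_le] at h3
      exact h3
    · push Not at hz2
      rw [ext_of_not u hz2]
      simpa using hε

lemma ext_bound {u : ℕ → ℝ → ℝ} {C : ℝ} (hC : 0 ≤ C)
    (hb : ∀ k x, |u k x| ≤ C) (y : ℝ) : |ext u y| ≤ C := by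
  by_cases hy : ∃ k x, g k x = y
  · obtain ⟨k, x, rfl⟩ := hy
    rw [ext_g]; exact hb k x
  · push Not at hy
    rw [ext_of_not u hy]; simpa using hC

lemma ext_sub {u v : ℕ → ℝ → ℝ} {C : ℝ} (hC : 0 ≤ C)
    (hb : ∀ k x, |u k x - v k x| ≤ C) (y : ℝ) : |ext u y - ext v y| ≤ C := by
  by_cases hy : ∃ k x, g k x = y
  · obtain ⟨k, x, rfl⟩ := hy
    rw [ext_g, ext_g]; exact hb k x
  · push Not at hy
    rw [ext_of_not u hy, ext_of_not v hy]; simpa using hC

end

end Pool.Agent.Lib_helper60.Ulam
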