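import Pool.Agent.Lib_helper60.Ulam1

set_option autoImplicit false

open Set Filter Topology

namespace Pool.Agent.Lib_helper60.Ulam

noncomputable section

/-- Polynomial evaluation is bounded and Lipschitz on the box `|v i| ≤ 4`. -/
lemma poly_lip {σ : Type*} (P : MvPolynomial σ ℤ) : ∃ L : ℝ, 0 ≤ L ∧
    ∀ v : σ → ℝ, (∀ i, |v i| ≤ 4) → |MvPolynomial.aeval v P| ≤ L ∧
      ∀ w : σ → ℝ, (∀ i, |w i| ≤ 4) → ∀ D : ℝ, 0 ≤ D → (∀ i, |v i - w i| ≤ D) →
        |MvPolynomial.aeval v P - MvPolynomial.aeval w P| ≤ L * D := by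
  induction P using MvPolynomial.induction_on with
  | C a =>
    refine ⟨|(a : ℝ)|, abs_nonneg _, ?_⟩
    intro v hv
    constructor
    · simp
    · intro w hw D hD h
      simp only [MvPolynomial.algHom_C, sub_self, abs_zero]
      positivity
  | add P Q hP hQ =>
    obtain ⟨L1, hL1, h1⟩ := hP
    obtain ⟨L2, hL2, h2⟩ := hQ
    refine ⟨L1 + L2, by positivity, ?_⟩
    intro v hv
    obtain ⟨h1a, h1b⟩ := h1 v hv
    obtain ⟨h2a, h2b⟩ := h2 v hv
    constructor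
    · rw [map_add]
      exact (abs_add_le _ _).trans (add_le_add h1a h2a)
    · intro w hw D hD h
      rw [map_add, map_add]
      have e : MvPolynomial.aeval v P + MvPolynomial.aeval v Q
          - (MvPolynomial.aeval w P + MvPolynomial.aeval w Q)
          = (MvPolynomial.aeval v P - MvPolynomial.aeval w P)
          + (MvPolynomial.aeval v Q - MvPolynomial.aeval w Q) := by ring
      rw [e]
      refine (abs_add_le _ _).trans ?_
      have := h1b w hw D hD h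
      have := h2b w hw D hD h
      linarith
  | mul_X P i hP =>
    obtain ⟨L, hL, h1⟩ := hP
    refine ⟨5 * L, by positivity, ?_⟩
    intro v hv
    obtain ⟨h1a, h1b⟩ := h1 v hv
    constructor
    · rw [map_mul, MvPolynomial.aeval_X, abs_mul]
      have := hv i
      calc |MvPolynomial.aeval v P| * |v i| ≤ L * 4 := by gcongr
        _ ≤ 5 * L := by linarith
    · intro w hw D hD h
      rw [map_mul, MvPolynomial.aeval_X, map_mul, MvPolynomial.aeval_X]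
      have e : MvPolynomial.aeval v P * v i - MvPolynomial.aeval w P * w i
          = (MvPolynomial.aeval v P - MvPolynomial.aeval w P) * v i
          + MvPolynomial.aeval w P * (v i - w i) := by ring
      rw [e]
      refine (abs_add_le _ _).trans ?_
      rw [abs_mul, abs_mul]
      have h3 := h1b w hw D hD h
      have h4 := (h1 w hw).1
      have h5 := hv i
      have h6 := h i
      calc |MvPolynomial.aeval v P - MvPolynomial.aeval w P| * |v i|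
            + |MvPolynomial.aeval w P| * |v i - w i| ≤ L * D * 4 + L * D := by gcongr
        _ = 5 * L * D := by ring

lemma psi_lip_aux {m q m' q' : ℝ} (hm' : 0 ≤ m') (h : m ≤ |q|) (h' : m' ≤ |q'|)
    (hmm : m' ≤ m) :
    |m ^ 2 / q - m' ^ 2 / q'| ≤ 2 * |m - m'| + |q - q'| := by
  have hm : 0 ≤ m := hm'.trans hmm
  by_cases hq : q = 0
  · subst hq
    have h0 : m = 0 := by rw [abs_zero] at h; linarith
    have h0' : m' = 0 := by linarith
    subst h0 h0'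
    simp
  have hqa : 0 < |q| := abs_pos.2 hq
  by_cases hq' : q' = 0
  · subst hq'
    have h0' : m' = 0 := by rw [abs_zero] at h'; linarith
    subst h0'
    have : |m ^ 2 / q - 0 ^ 2 / 0| ≤ m := by
      rw [div_zero, sub_zero, abs_div, abs_of_nonneg (by positivity : 0 ≤ m ^ 2),
        div_le_iff₀ hqa]
      nlinarith
    have h2 : |m - 0| = m := by rw [sub_zero, abs_of_nonneg hm]
    rw [h2]
    have := abs_nonneg (q - 0)
    linarith
  have hqa' : 0 < |q'| := abs_pos.2 hq'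
  have e : m ^ 2 / q - m' ^ 2 / q' = (m - m') * (m + m') / q + (m' ^ 2) * (q' - q) / (q * q') := by
    field_simp
    ring
  rw [e]
  refine (abs_add_le _ _).trans ?_
  have h1 : |(m - m') * (m + m') / q| ≤ 2 * |m - m'| := by
    rw [abs_div, abs_mul, div_le_iff₀ hqa]
    have : |m + m'| ≤ 2 * |q| := by
      rw [abs_of_nonneg (by positivity)]; linarith
    calc |m - m'| * |m + m'| ≤ |m - m'| * (2 * |q|) := by gcongr
      _ = 2 * |m - m'| * |q| := by ring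
  have h2 : |(m' ^ 2) * (q' - q) / (q * q')| ≤ |q - q'| := by
    rw [abs_div, abs_mul, abs_mul, div_le_iff₀ (by positivity), abs_sub_comm q' q,
      abs_of_nonneg (by positivity : 0 ≤ m' ^ 2)]
    have : m' ^ 2 ≤ |q| * |q'| := by
      rw [sq]
      exact mul_le_mul (hmm.trans h) h' hm' hqa.le
    calc m' ^ 2 * |q - q'| ≤ (|q| * |q'|) * |q - q'| := by gcongr
      _ = |q - q'| * (|q| * |q'|) := by ring
  exact add_le_add h1 h2

lemma psi_lip {m q m' q' : ℝ} (hm : 0 ≤ m) (hm' : 0 ≤ m') (h : m ≤ |q|) (h' : m' ≤ |q'|) :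
    |m ^ 2 / q - m' ^ 2 / q'| ≤ 2 * |m - m'| + |q - q'| := by
  rcases le_total m' m with hmm | hmm
  · exact psi_lip_aux hm' h h' hmm
  · have := psi_lip_aux hm h' h hmm
    rw [abs_sub_comm (m ^ 2 / q), abs_sub_comm m, abs_sub_comm q]
    exact this

lemma psi_bd {m q : ℝ} (hm : 0 ≤ m) (h : m ≤ |q|) : |m ^ 2 / q| ≤ m := by
  by_cases hq : q = 0
  · subst hq; simpa using hm
  have hqa : 0 < |q| := abs_pos.2 hq
  rw [abs_div, abs_of_nonneg (by positivity : 0 ≤ m ^ 2), div_le_iff₀ hqa]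
  nlinarith

/-- minimum of `|q|` on the segment from `x0` to `x` -/
def mm (q : ℝ → ℝ) (x0 x : ℝ) : ℝ := sInf ((fun θ : ℝ => |q (x0 + (x - x0) * θ)|) '' Icc 0 1)

lemma mm_bddBelow (q : ℝ → ℝ) (x0 x : ℝ) :
    BddBelow ((fun θ : ℝ => |q (x0 + (x - x0) * θ)|) '' Icc 0 1) :=
  ⟨0, by rintro _ ⟨θ, _, rfl⟩; exact abs_nonneg _⟩

lemma mm_nonempty (q : ℝ → ℝ) (x0 x : ℝ) :
    ((fun θ : ℝ => |q (x0 + (x - x0) * θ)|) '' Icc 0 1).Nonempty :=
  ⟨_, 0, ⟨le_refl _, zero_le_one⟩, rfl⟩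

lemma mm_nonneg (q : ℝ → ℝ) (x0 x : ℝ) : 0 ≤ mm q x0 x :=
  le_csInf (mm_nonempty q x0 x) (by rintro _ ⟨θ, _, rfl⟩; exact abs_nonneg _)

lemma mm_le (q : ℝ → ℝ) (x0 x : ℝ) {θ : ℝ} (hθ : θ ∈ Icc (0 : ℝ) 1) :
    mm q x0 x ≤ |q (x0 + (x - x0) * θ)| :=
  csInf_le (mm_bddBelow q x0 x) ⟨θ, hθ, rfl⟩

lemma mm_cont {q : ℝ → ℝ} (hq : Continuous q) (x0 : ℝ) : Continuous (mm q x0) := by
  unfold mm
  apply IsCompact.continuous_sInf (f := fun (x θ : ℝ) => |q (x0 + (x - x0) * θ)|) isCompact_Icc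
  simp only [Function.HasUncurry.uncurry, id]
  fun_prop

lemma mm_lip_aux {q q' : ℝ → ℝ} {D : ℝ} (h : ∀ x, |q x - q' x| ≤ D) (x0 x : ℝ) :
    mm q x0 x ≤ mm q' x0 x + D := by
  rw [← sub_le_iff_le_add]
  refine le_csInf (mm_nonempty q' x0 x) ?_
  rintro _ ⟨θ, hθ, rfl⟩
  have h1 := mm_le q x0 x hθ
  have h2 := h (x0 + (x - x0) * θ)
  have h3 := abs_sub_abs_le_abs_sub (q (x0 + (x - x0) * θ)) (q' (x0 + (x - x0) * θ))
  simp only
  linarith

lemma mm_lip {q q' : ℝ → ℝ} {D : ℝ} (h : ∀ x, |q x - q' x| ≤ D) (x0 x : ℝ) :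
    |mm q x0 x - mm q' x0 x| ≤ D := by
  rw [abs_le]
  have h1 := mm_lip_aux h x0 x
  have h2 := mm_lip_aux (q := q') (q' := q) (D := D)
    (fun x => by rw [abs_sub_comm]; exact h x) x0 x
  constructor <;> linarith

lemma mm_pos {q : ℝ → ℝ} (hq : Continuous q) (x0 x : ℝ)
    (h : ∀ θ ∈ Icc (0 : ℝ) 1, q (x0 + (x - x0) * θ) ≠ 0) : 0 < mm q x0 x := by
  have hc : IsCompact ((fun θ : ℝ => |q (x0 + (x - x0) * θ)|) '' Icc 0 1) :=
    isCompact_Icc.image (by fun_prop)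
  obtain ⟨θ, hθ, he⟩ := hc.sInf_mem (mm_nonempty q x0 x)
  unfold mm
  rw [← he]
  exact abs_pos.2 (h θ hθ)

/-- the weighted integrand -/
def hh (q r : ℝ → ℝ) (x0 x θ : ℝ) : ℝ :=
  mm q x0 x ^ 2 / q (x0 + (x - x0) * θ) * r (x0 + (x - x0) * θ)

/-- Extended to all `θ` by projecting to `[0,1]`. -/
def hh' (q r : ℝ → ℝ) (x0 x θ : ℝ) : ℝ := hh q r x0 x (projIcc 0 1 zero_le_one θ)

lemma hh'_eq {q r : ℝ → ℝ} {x0 x θ : ℝ} (hθ : θ ∈ Icc (0 : ℝ) 1) :
    hh' q r x0 x θ = hh q r x0 x θ := by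
  unfold hh'
  rw [projIcc_of_mem zero_le_one hθ]

lemma hh'_cont {q r : ℝ → ℝ} (hq : Continuous q) (hr : Continuous r) (x0 : ℝ) :
    Continuous (fun z : ℝ × ℝ => hh' q r x0 z.1 z.2) := by
  unfold hh' hh
  have hproj : Continuous (fun z : ℝ × ℝ => ((projIcc (0 : ℝ) 1 zero_le_one z.2 : Icc (0:ℝ) 1) : ℝ)) :=
    continuous_subtype_val.comp (continuous_projIcc.comp continuous_snd)
  refine Continuous.mul ?_ (hr.comp (by fun_prop))
  -- the Lipschitz function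
  have hm : Continuous (fun z : ℝ × ℝ => mm q x0 z.1) := (mm_cont hq x0).comp continuous_fst
  have hqq : Continuous (fun z : ℝ × ℝ =>
      q (x0 + (z.1 - x0) * (projIcc (0 : ℝ) 1 zero_le_one z.2 : Icc (0:ℝ) 1))) :=
    hq.comp (by fun_prop)
  rw [continuous_iff_continuousAt]
  intro z0
  rw [ContinuousAt, tendsto_iff_dist_tendsto_zero]
  have hb : Tendsto (fun z : ℝ × ℝ => 2 * |mm q x0 z.1 - mm q x0 z0.1|
      + |q (x0 + (z.1 - x0) * (projIcc (0 : ℝ) 1 zero_le_one z.2 : Icc (0:ℝ) 1))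
        - q (x0 + (z0.1 - x0) * (projIcc (0 : ℝ) 1 zero_le_one z0.2 : Icc (0:ℝ) 1))|)
      (𝓝 z0) (𝓝 0) := by
    have hcont : Continuous (fun z : ℝ × ℝ => 2 * |mm q x0 z.1 - mm q x0 z0.1|
      + |q (x0 + (z.1 - x0) * (projIcc (0 : ℝ) 1 zero_le_one z.2 : Icc (0:ℝ) 1))
        - q (x0 + (z0.1 - x0) * (projIcc (0 : ℝ) 1 zero_le_one z0.2 : Icc (0:ℝ) 1))|) :=
      (continuous_const.mul (hm.sub continuous_const).abs).add (hqq.sub continuous_const).abs
    have := hcont.tendsto z0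
    simpa using this
  refine squeeze_zero (fun z => dist_nonneg) (fun z => ?_) hb
  rw [Real.dist_eq]
  exact psi_lip (mm_nonneg _ _ _) (mm_nonneg _ _ _)
    (mm_le q x0 z.1 (Subtype.coe_prop _)) (mm_le q x0 z0.1 (Subtype.coe_prop _))

lemma hh_lip {q r q' r' : ℝ → ℝ} {M D : ℝ} (hM : 0 ≤ M) (hD : 0 ≤ D) (hqM' : ∀ x, |q' x| ≤ M)
    (hrM : ∀ x, |r x| ≤ M) (hq : ∀ x, |q x - q' x| ≤ D) (hr : ∀ x, |r x - r' x| ≤ D)
    (x0 x : ℝ) {θ : ℝ} (hθ : θ ∈ Icc (0 : ℝ) 1) :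
    |hh q r x0 x θ - hh q' r' x0 x θ| ≤ 4 * M * D := by
  unfold hh
  set A := mm q x0 x ^ 2 / q (x0 + (x - x0) * θ)
  set A' := mm q' x0 x ^ 2 / q' (x0 + (x - x0) * θ)
  have e : A * r (x0 + (x - x0) * θ) - A' * r' (x0 + (x - x0) * θ)
      = (A - A') * r (x0 + (x - x0) * θ)
        + A' * (r (x0 + (x - x0) * θ) - r' (x0 + (x - x0) * θ)) := by ring
  rw [e]
  refine (abs_add_le _ _).trans ?_
  rw [abs_mul, abs_mul]
  have h1 : |A - A'| ≤ 3 * D := by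
    have h2 := psi_lip (mm_nonneg q x0 x) (mm_nonneg q' x0 x) (mm_le q x0 x hθ)
      (mm_le q' x0 x hθ)
    have h3 := mm_lip hq x0 x
    have h4 := hq (x0 + (x - x0) * θ)
    calc |A - A'| ≤ _ := h2
      _ ≤ 3 * D := by linarith
  have h5 : |A'| ≤ M := by
    have h6 := psi_bd (mm_nonneg q' x0 x) (mm_le q' x0 x hθ)
    have h7 := mm_le q' x0 x hθ
    have h8 := hqM' (x0 + (x - x0) * θ)
    exact h6.trans (h7.trans h8)
  have h9 := hrM (x0 + (x - x0) * θ)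
  have h10 := hr (x0 + (x - x0) * θ)
  calc |A - A'| * |r (x0 + (x - x0) * θ)|
        + |A'| * |r (x0 + (x - x0) * θ) - r' (x0 + (x - x0) * θ)|
      ≤ 3 * D * M + M * D := by gcongr
    _ = 4 * M * D := by ring

lemma hh_bd {q r : ℝ → ℝ} {M : ℝ} (hM : 0 ≤ M) (hqM : ∀ x, |q x| ≤ M)
    (hrM : ∀ x, |r x| ≤ M) (x0 x : ℝ) {θ : ℝ} (hθ : θ ∈ Icc (0 : ℝ) 1) :
    |hh q r x0 x θ| ≤ M * M := by
  unfold hh
  rw [abs_mul]
  have h6 := psi_bd (mm_nonneg q x0 x) (mm_le q x0 x hθ)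
  have h7 := mm_le q x0 x hθ
  have h8 := hqM (x0 + (x - x0) * θ)
  have h9 := hrM (x0 + (x - x0) * θ)
  have h10 := h6.trans (h7.trans h8)
  exact mul_le_mul h10 h9 (abs_nonneg _) hM

/-- first stored function: weight -/
def WW (q : ℝ → ℝ) (x0 x : ℝ) : ℝ := mm q x0 x ^ 2 / (1 + x ^ 2)

/-- second stored function: weight times primitive -/
def GG (q r : ℝ → ℝ) (x0 x : ℝ) : ℝ := (x - x0) / (1 + x ^ 2) * ∫ θ in (0 : ℝ)..1, hh' q r x0 x θ

lemma WW_cont {q : ℝ → ℝ} (hq : Continuous q) (x0 : ℝ) : Continuous (WW q x0) := by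
  unfold WW
  refine ((mm_cont hq x0).pow 2).div (by fun_prop) (fun x => by positivity)

lemma GG_cont {q r : ℝ → ℝ} (hq : Continuous q) (hr : Continuous r) (x0 : ℝ) :
    Continuous (GG q r x0) := by
  unfold GG
  refine Continuous.mul (Continuous.div (by fun_prop) (by fun_prop) (fun x => by positivity)) ?_
  exact intervalIntegral.continuous_parametric_intervalIntegral_of_continuous'
    (hh'_cont hq hr x0) 0 1

lemma aux_bd (x : ℝ) : 1 / (1 + x ^ 2) ≤ 2 / (1 + |x|) := by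
  have h0 := abs_nonneg x
  rw [div_le_div_iff₀ (by positivity) (by positivity)]
  nlinarith [sq_abs x, sq_nonneg (|x| - 1)]

lemma aux_bd2 (x0 x : ℝ) : |(x - x0) / (1 + x ^ 2)| ≤ (1 + |x0|) * (2 / (1 + |x|)) := by
  have h0 := abs_nonneg x
  have h00 := abs_nonneg x0
  have h1 : |x - x0| ≤ (1 + |x0|) * (1 + |x|) := by
    have := abs_sub x x0
    nlinarith
  rw [abs_div, abs_of_pos (by positivity : 0 < 1 + x ^ 2)]
  have h2 : (1 + |x|) / (1 + x ^ 2) ≤ 2 / (1 + |x|) := by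
    rw [div_le_div_iff₀ (by positivity) (by positivity)]
    nlinarith [sq_abs x, sq_nonneg (|x| - 1)]
  calc |x - x0| / (1 + x ^ 2) ≤ (1 + |x0|) * (1 + |x|) / (1 + x ^ 2) := by gcongr
    _ = (1 + |x0|) * ((1 + |x|) / (1 + x ^ 2)) := by ring
    _ ≤ (1 + |x0|) * (2 / (1 + |x|)) := by gcongr

lemma WW_bd {q : ℝ → ℝ} {M : ℝ} (hqM : ∀ x, |q x| ≤ M) (x0 x : ℝ) :
    |WW q x0 x| ≤ 2 * M ^ 2 / (1 + |x|) := by
  unfold WW
  have h0 := mm_nonneg q x0 x
  have h1 : mm q x0 x ≤ M := (mm_le q x0 x (θ := 0) (by simp)).trans (hqM _)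
  rw [abs_of_nonneg (by positivity)]
  have := aux_bd x
  calc mm q x0 x ^ 2 / (1 + x ^ 2) = mm q x0 x ^ 2 * (1 / (1 + x ^ 2)) := by ring
    _ ≤ M ^ 2 * (2 / (1 + |x|)) := by gcongr
    _ = 2 * M ^ 2 / (1 + |x|) := by ring

lemma WW_lip {q q' : ℝ → ℝ} {M D : ℝ} (hD : 0 ≤ D) (hqM : ∀ x, |q x| ≤ M)
    (hqM' : ∀ x, |q' x| ≤ M) (hq : ∀ x, |q x - q' x| ≤ D) (x0 x : ℝ) :
    |WW q x0 x - WW q' x0 x| ≤ 2 * M * D := by
  unfold WW
  have h0 := mm_nonneg q x0 x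
  have h1 : mm q x0 x ≤ M := (mm_le q x0 x (θ := 0) (by simp)).trans (hqM _)
  have h0' := mm_nonneg q' x0 x
  have h1' : mm q' x0 x ≤ M := (mm_le q' x0 x (θ := 0) (by simp)).trans (hqM' _)
  have h2 := mm_lip hq x0 x
  have hM : 0 ≤ M := h0.trans h1
  rw [← sub_div, abs_div, abs_of_pos (by positivity : 0 < 1 + x ^ 2), div_le_iff₀ (by positivity)]
  have e : mm q x0 x ^ 2 - mm q' x0 x ^ 2
      = (mm q x0 x - mm q' x0 x) * (mm q x0 x + mm q' x0 x) := by ring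
  rw [e, abs_mul]
  have h3 : |mm q x0 x + mm q' x0 x| ≤ 2 * M := by
    rw [abs_of_nonneg (by positivity)]; linarith
  calc |mm q x0 x - mm q' x0 x| * |mm q x0 x + mm q' x0 x| ≤ D * (2 * M) := by gcongr
    _ = 2 * M * D * 1 := by ring
    _ ≤ 2 * M * D * (1 + x ^ 2) := by
      apply mul_le_mul_of_nonneg_left _ (by positivity)
      nlinarith

lemma GG_bd {q r : ℝ → ℝ} {M : ℝ} (hqM : ∀ x, |q x| ≤ M) (hrM : ∀ x, |r x| ≤ M) (x0 x : ℝ) :
    |GG q r x0 x| ≤ 2 * (1 + |x0|) * M ^ 2 / (1 + |x|) := by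
  have hM : 0 ≤ M := (abs_nonneg _).trans (hqM 0)
  unfold GG
  rw [abs_mul]
  have h1 : |∫ θ in (0 : ℝ)..1, hh' q r x0 x θ| ≤ M * M := by
    have := intervalIntegral.norm_integral_le_of_norm_le_const (a := (0:ℝ)) (b := 1)
      (f := fun θ => hh' q r x0 x θ) (C := M * M) (by
        intro θ hθ
        rw [uIoc_of_le zero_le_one] at hθ
        have hθ' : θ ∈ Icc (0 : ℝ) 1 := ⟨hθ.1.le, hθ.2⟩
        rw [hh'_eq hθ', Real.norm_eq_abs]
        exact hh_bd hM hqM hrM x0 x hθ')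
    simpa using this
  have h2 := aux_bd2 x0 x
  have h3 := abs_nonneg x
  have h4 := abs_nonneg x0
  calc |(x - x0) / (1 + x ^ 2)| * |∫ θ in (0 : ℝ)..1, hh' q r x0 x θ|
      ≤ ((1 + |x0|) * (2 / (1 + |x|))) * (M * M) := by gcongr
    _ = 2 * (1 + |x0|) * M ^ 2 / (1 + |x|) := by ring

lemma GG_lip {q r q' r' : ℝ → ℝ} {M D : ℝ} (hD : 0 ≤ D)
    (hqc : Continuous q) (hrc : Continuous r) (hqc' : Continuous q') (hrc' : Continuous r')
    (hqM' : ∀ x, |q' x| ≤ M)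
    (hrM : ∀ x, |r x| ≤ M) (hq : ∀ x, |q x - q' x| ≤ D) (hr : ∀ x, |r x - r' x| ≤ D)
    (x0 x : ℝ) :
    |GG q r x0 x - GG q' r' x0 x| ≤ 8 * (1 + |x0|) * M * D := by
  have hM : 0 ≤ M := (abs_nonneg _).trans (hrM 0)
  unfold GG
  rw [← mul_sub, abs_mul]
  have i1 : IntervalIntegrable (fun θ => hh' q r x0 x θ) MeasureTheory.volume 0 1 :=
    ((hh'_cont hqc hrc x0).comp (Continuous.prodMk_right x)).intervalIntegrable 0 1
  have i2 : IntervalIntegrable (fun θ => hh' q' r' x0 x θ) MeasureTheory.volume 0 1 :=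
    ((hh'_cont hqc' hrc' x0).comp (Continuous.prodMk_right x)).intervalIntegrable 0 1
  rw [← intervalIntegral.integral_sub i1 i2]
  have h1 : |∫ θ in (0 : ℝ)..1, (hh' q r x0 x θ - hh' q' r' x0 x θ)| ≤ 4 * M * D := by
    have := intervalIntegral.norm_integral_le_of_norm_le_const (a := (0:ℝ)) (b := 1)
      (f := fun θ => hh' q r x0 x θ - hh' q' r' x0 x θ) (C := 4 * M * D) (by
        intro θ hθ
        rw [uIoc_of_le zero_le_one] at hθ
        have hθ' : θ ∈ Icc (0 : ℝ) 1 := ⟨hθ.1.le, hθ.2⟩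
        rw [hh'_eq hθ', hh'_eq hθ', Real.norm_eq_abs]
        exact hh_lip hM hD hqM' hrM hq hr x0 x hθ')
    simpa using this
  have h2 := aux_bd2 x0 x
  have h3 := abs_nonneg x
  have h4 := abs_nonneg x0
  have h5 : 2 / (1 + |x|) ≤ 2 := by
    rw [div_le_iff₀ (by positivity)]; linarith
  calc |(x - x0) / (1 + x ^ 2)| * |∫ θ in (0 : ℝ)..1, (hh' q r x0 x θ - hh' q' r' x0 x θ)|
      ≤ ((1 + |x0|) * 2) * (4 * M * D) := by
        apply mul_le_mul (h2.trans _) h1 (abs_nonneg _) (by positivity)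
        gcongr
    _ = 8 * (1 + |x0|) * M * D := by ring

/-- On an interval where `q ≠ 0`, `GG / WW` is the primitive of `r / q`. -/
lemma GG_eq (q r : ℝ → ℝ) (x0 x : ℝ) :
    GG q r x0 x = WW q x0 x * ∫ t in x0..x, r t / q t := by
  have e1 : (∫ θ in (0 : ℝ)..1, hh' q r x0 x θ)
      = ∫ θ in (0 : ℝ)..1, mm q x0 x ^ 2 * (r (x0 + (x - x0) * θ) / q (x0 + (x - x0) * θ)) := by
    apply intervalIntegral.integral_congr
    intro θ hθ
    rw [uIcc_of_le zero_le_one] at hθ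
    simp only
    rw [hh'_eq hθ]
    unfold hh
    ring
  have e2 := intervalIntegral.mul_integral_comp_add_mul (a := (0:ℝ)) (b := 1)
    (f := fun t => r t / q t) (c := x - x0) (d := x0)
  unfold GG WW
  rw [e1, intervalIntegral.integral_const_mul]
  have e3 : x0 + (x - x0) * 0 = x0 := by ring
  have e4 : x0 + (x - x0) * 1 = x := by ring
  rw [e3, e4] at e2
  rw [← e2]
  ring

end

end Pool.Agent.Lib_helper60.Ulam
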