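import Pool.Agent.Lib_helper60.Ulam2

set_option autoImplicit false

open Set Filter Topology

namespace Pool.Agent.Lib_helper60.Ulam

noncomputable section

/-- the vector of the three functions -/
def vec (c : ℝ → ℝ) (x : ℝ) : Fin 3 → ℝ := ![s x, p x, c x]

/-- evaluation of a polynomial at the three functions -/
def ev (c : ℝ → ℝ) (P : MvPolynomial (Fin 3) ℤ) (x : ℝ) : ℝ := MvPolynomial.aeval (vec c x) P

/-- admissible code functions -/
def Adm (c : ℝ → ℝ) : Prop := Continuous c ∧ ∀ x, |c x| ≤ 1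

lemma vec_abs {c : ℝ → ℝ} (hc : Adm c) (x : ℝ) (i : Fin 3) : |vec c x i| ≤ 4 := by
  fin_cases i
  · exact s_abs x
  · exact p_abs x
  · exact (hc.2 x).trans (by norm_num)

lemma vec_sub {c c' : ℝ → ℝ} {D : ℝ} (hD : 0 ≤ D) (h : ∀ x, |c x - c' x| ≤ D) (x : ℝ) (i : Fin 3) :
    |vec c x i - vec c' x i| ≤ D := by
  fin_cases i
  · simpa [vec] using hD
  · simpa [vec] using hD
  · exact h x

lemma ev_cont {c : ℝ → ℝ} (hc : Continuous c) (P : MvPolynomial (Fin 3) ℤ) :
    Continuous (ev c P) := by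
  induction P using MvPolynomial.induction_on with
  | C a => 
    unfold ev
    simp only [MvPolynomial.algHom_C]
    exact continuous_const
  | add P Q hP hQ =>
    have : ev c (P + Q) = fun x => ev c P x + ev c Q x := by
      funext x; simp [ev]
    rw [this]; exact hP.add hQ
  | mul_X P i hP =>
    have : ev c (P * MvPolynomial.X i) = fun x => ev c P x * vec c x i := by
      funext x; simp [ev]
    rw [this]
    refine hP.mul ?_
    fin_cases i
    · exact s_cont
    · exact p_cont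
    · exact hc

/-- index type of the stored functions -/
abbrev Idx : Type := MvPolynomial (Fin 3) ℤ × MvPolynomial (Fin 3) ℤ × ℚ × Bool

lemma countable_poly : Countable (MvPolynomial (Fin 3) ℤ) := by
  rw [← Cardinal.mk_le_aleph0_iff]
  refine (MvPolynomial.cardinalMk_le_max).trans ?_
  simp

/-- the functions to be stored -/
def base (i : Idx) (c : ℝ → ℝ) : ℝ → ℝ :=
  if i.2.2.2 = true then GG (ev c i.2.1) (ev c i.1) (i.2.2.1 : ℝ) else WW (ev c i.2.1) (i.2.2.1 : ℝ)

lemma base_props (i : Idx) : ∃ K : ℝ, 0 ≤ K ∧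
    (∀ c, Adm c → Continuous (base i c) ∧ ∀ x, |base i c x| ≤ K / (1 + |x|)) ∧
    (∀ c c', Adm c → Adm c' → ∀ D, 0 ≤ D → (∀ x, |c x - c' x| ≤ D) →
      ∀ x, |base i c x - base i c' x| ≤ K * D) := by
  obtain ⟨P, Q, x0, b⟩ := i
  obtain ⟨LP, hLP, hP⟩ := poly_lip P
  obtain ⟨LQ, hLQ, hQ⟩ := poly_lip Q
  set M := LP + LQ with hMdef
  have hM : 0 ≤ M := by positivity
  have hPb : ∀ c, Adm c → ∀ x, |ev c P x| ≤ M := fun c hc x =>
    ((hP (vec c x) (vec_abs hc x)).1).trans (by linarith)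
  have hQb : ∀ c, Adm c → ∀ x, |ev c Q x| ≤ M := fun c hc x =>
    ((hQ (vec c x) (vec_abs hc x)).1).trans (by linarith)
  have hPl : ∀ c c', Adm c → Adm c' → ∀ D, 0 ≤ D → (∀ x, |c x - c' x| ≤ D) →
      ∀ x, |ev c P x - ev c' P x| ≤ M * D := fun c c' hc hc' D hD h x => by
    have h1 := (hP (vec c x) (vec_abs hc x)).2 (vec c' x) (vec_abs hc' x) D hD (vec_sub hD h x)
    refine h1.trans ?_
    gcongr
    linarith
  have hQl : ∀ c c', Adm c → Adm c' → ∀ D, 0 ≤ D → (∀ x, |c x - c' x| ≤ D) →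
      ∀ x, |ev c Q x - ev c' Q x| ≤ M * D := fun c c' hc hc' D hD h x => by
    have h1 := (hQ (vec c x) (vec_abs hc x)).2 (vec c' x) (vec_abs hc' x) D hD (vec_sub hD h x)
    refine h1.trans ?_
    gcongr
    linarith
  have hx0 := abs_nonneg (x0 : ℝ)
  cases b
  · -- weight
    refine ⟨2 * M ^ 2, by positivity, ?_, ?_⟩
    · intro c hc
      have e : base (P, Q, x0, false) c = WW (ev c Q) (x0 : ℝ) := by simp [base]
      rw [e]
      exact ⟨WW_cont (ev_cont hc.1 Q) _, fun x => WW_bd (hQb c hc) _ x⟩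
    · intro c c' hc hc' D hD h x
      have e : ∀ c, base (P, Q, x0, false) c = WW (ev c Q) (x0 : ℝ) := by simp [base]
      rw [e, e]
      have := WW_lip (D := M * D) (by positivity) (hQb c hc) (hQb c' hc')
        (hQl c c' hc hc' D hD h) (x0 : ℝ) x
      calc _ ≤ 2 * M * (M * D) := this
        _ = 2 * M ^ 2 * D := by ring
  · refine ⟨8 * (1 + |(x0 : ℝ)|) * M ^ 2, by positivity, ?_, ?_⟩
    · intro c hc
      have e : base (P, Q, x0, true) c = GG (ev c Q) (ev c P) (x0 : ℝ) := by simp [base]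
      rw [e]
      refine ⟨GG_cont (ev_cont hc.1 Q) (ev_cont hc.1 P) _, fun x => ?_⟩
      refine (GG_bd (hQb c hc) (hPb c hc) _ x).trans ?_
      have h3 := abs_nonneg x
      gcongr
      norm_num
    · intro c c' hc hc' D hD h x
      have e : ∀ c, base (P, Q, x0, true) c = GG (ev c Q) (ev c P) (x0 : ℝ) := by simp [base]
      rw [e, e]
      have := GG_lip (D := M * D) (M := M) (by positivity) (ev_cont hc.1 Q) (ev_cont hc.1 P)
        (ev_cont hc'.1 Q) (ev_cont hc'.1 P) (hQb c' hc') (hPb c hc)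
        (hQl c c' hc hc' D hD h) (hPl c c' hc hc' D hD h) (x0 : ℝ) x
      calc _ ≤ 8 * (1 + |(x0 : ℝ)|) * M * (M * D) := this
        _ = 8 * (1 + |(x0 : ℝ)|) * M ^ 2 * D := by ring

/-- The abstract fixed point: there is an admissible `c` storing a positive integer fraction of every
`base i c`. -/
theorem exists_code : ∃ c : ℝ → ℝ, Adm c ∧ ∀ i : Idx, ∃ k N : ℕ, 0 < N ∧
    ∀ x, (N : ℝ) * c (g k x) = base i c x := by
  have := countable_poly
  have : Nonempty Idx := ⟨(0, 0, 0, true)⟩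
  obtain ⟨e, he⟩ := exists_surjective_nat Idx
  choose K hK0 hK1 hK2 using base_props
  have hN : ∀ k : ℕ, ∃ N : ℕ, 0 < N ∧ 2 ^ k * (2 * K (e k) + 1) ≤ (N : ℝ) := by
    intro k
    obtain ⟨N, hN⟩ := exists_nat_ge (2 ^ k * (2 * K (e k) + 1))
    refine ⟨N, ?_, hN⟩
    have h1 := hK0 (e k)
    have : (0 : ℝ) < N := lt_of_lt_of_le (by positivity) hN
    exact_mod_cast this
  choose N hNpos hNge using hN
  let u : (ℝ → ℝ) → ℕ → ℝ → ℝ := fun c k x => base (e k) c x / N k
  have hNpos' : ∀ k, (0 : ℝ) < N k := fun k => by exact_mod_cast hNpos k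
  have hucont : ∀ c, Adm c → ∀ k, Continuous (u c k) := fun c hc k =>
    ((hK1 (e k) c hc).1).div_const _
  have hub : ∀ c, Adm c → ∀ k x, |u c k x| ≤ (1 / 2) ^ k / (1 + |x|) := by
    intro c hc k x
    have h1 := (hK1 (e k) c hc).2 x
    have h2 := hNge k
    have h3 := hK0 (e k)
    have h4 := abs_nonneg x
    simp only [u]
    rw [abs_div, abs_of_pos (hNpos' k), div_le_iff₀ (hNpos' k)]
    refine h1.trans ?_
    rw [div_mul_eq_mul_div]
    apply div_le_div_of_nonneg_right _ (by positivity)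
    have h5 : (1 / 2 : ℝ) ^ k * (2 ^ k * (2 * K (e k) + 1)) = 2 * K (e k) + 1 := by
      rw [← mul_assoc, ← mul_pow]; norm_num
    have h6 : (1 / 2 : ℝ) ^ k * (2 ^ k * (2 * K (e k) + 1)) ≤ (1 / 2 : ℝ) ^ k * N k := by gcongr
    linarith
  have hub1 : ∀ c, Adm c → ∀ k x, |u c k x| ≤ 1 := by
    intro c hc k x
    refine (hub c hc k x).trans ?_
    have h4 := abs_nonneg x
    rw [div_le_one (by positivity)]
    have : (1 / 2 : ℝ) ^ k ≤ 1 := pow_le_one₀ (by norm_num) (by norm_num)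
    linarith
  have hul : ∀ c c', Adm c → Adm c' → ∀ D, 0 ≤ D → (∀ x, |c x - c' x| ≤ D) →
      ∀ k x, |u c k x - u c' k x| ≤ (1 / 2) * D := by
    intro c c' hc hc' D hD h k x
    have h1 := hK2 (e k) c c' hc hc' D hD h x
    simp only [u]
    rw [← sub_div, abs_div, abs_of_pos (hNpos' k), div_le_iff₀ (hNpos' k)]
    refine h1.trans ?_
    have h2 := hNge k
    have h3 := hK0 (e k)
    have h5 : (1 : ℝ) ≤ 2 ^ k := one_le_pow₀ (by norm_num)
    have h6 : 2 * K (e k) ≤ N k := by nlinarith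
    nlinarith
  -- the complete space
  let X : Set (BoundedContinuousFunction ℝ ℝ) := Metric.closedBall 0 1
  have : CompleteSpace X := Metric.isClosed_closedBall.completeSpace_coe
  have : Nonempty X := ⟨⟨0, by simp [X]⟩⟩
  have hadm : ∀ c : X, Adm (c.1 : ℝ → ℝ) := by
    intro c
    refine ⟨c.1.continuous, fun x => ?_⟩
    have h1 : ‖c.1‖ ≤ 1 := mem_closedBall_zero_iff.1 c.2
    exact (c.1.norm_coe_le_norm x).trans h1
  let Φ : X → X := fun c =>
    ⟨BoundedContinuousFunction.ofNormedAddCommGroup (ext (u c.1))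
      (ext_cont (hucont c.1 (hadm c)) (hub c.1 (hadm c))) 1
      (fun x => ext_bound zero_le_one (hub1 c.1 (hadm c)) x), by
      simp only [X, mem_closedBall_zero_iff]
      exact BoundedContinuousFunction.norm_ofNormedAddCommGroup_le _ zero_le_one _⟩
  have hΦ : ContractingWith (1 / 2) Φ := by
    refine ⟨by rw [← NNReal.coe_lt_coe]; norm_num, LipschitzWith.of_dist_le_mul ?_⟩
    intro c c'
    have hd : 0 ≤ dist c c' := dist_nonneg
    rw [Subtype.dist_eq, BoundedContinuousFunction.dist_le (by positivity)]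
    intro x
    rw [Real.dist_eq]
    have h1 : ∀ x, |c.1 x - c'.1 x| ≤ dist c c' := by
      intro x
      rw [← Real.dist_eq]
      exact BoundedContinuousFunction.dist_coe_le_dist x
    have h2 := ext_sub (u := u c.1) (v := u c'.1) (C := (1 / 2) * dist c c') (by positivity)
      (hul c.1 c'.1 (hadm c) (hadm c') _ hd h1) x
    have h3 : ((1 / 2 : NNReal) : ℝ) = 1 / 2 := by norm_num
    rw [h3]
    exact h2
  have hfix := hΦ.fixedPoint_isFixedPt
  set c0 := ContractingWith.fixedPoint Φ hΦ with hc0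
  refine ⟨c0.1, hadm c0, ?_⟩
  intro i
  obtain ⟨k, rfl⟩ := he i
  refine ⟨k, N k, hNpos k, fun x => ?_⟩
  have h1 : (c0.1 : ℝ → ℝ) = ext (u c0.1) := by
    have h4 : Φ c0 = c0 := hfix
    have h2 : ((Φ c0).1 : ℝ → ℝ) = (c0.1 : ℝ → ℝ) := by rw [h4]
    exact h2.symm
  have h3 : c0.1 (g k x) = u c0.1 k x := by
    conv_lhs => rw [h1]
    exact ext_g _ _ _
  rw [h3]
  simp only [u]
  have := (hNpos' k).ne'
  field_simp

end

end Pool.Agent.Lib_helper60.Ulam
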